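import Pool.Agent.H369.TH.Ent

/-! Entire functions: definitions. -/

set_option autoImplicit false

namespace Pool.Agent.H369.TH

open PowerSeries

variable {Γ K : Type} [AddCommGroup Γ] [LinearOrder Γ] [IsOrderedAddMonoid Γ] [Field K]

theorem Ent.rel (f : Ent Γ K) (s a : Γ) (m : ℤ) : cf (f.1 s) a m = cf (f.1 0) (a - m • s) m := f.2 s a m

/-- the coefficient of `x^m` of an entire function, an element of the field of constants -/
noncomputable def co (f : Ent Γ K) (m : ℤ) : HG Γ K where
  coeff a := cf (f.1 0) a m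
  isPWO_support' := (f.1 0).isPWO_support.mono (by
    intro a ha
    rw [Function.mem_support] at ha
    rw [HahnSeries.mem_support]
    intro h
    apply ha
    simp [cf, h])

theorem coeff_co (f : Ent Γ K) (m : ℤ) (a : Γ) : (co f m).coeff a = cf (f.1 0) a m := rfl

/-- the constant Laurent series -/
noncomputable def incl : HG Γ K →+* HL Γ K where
  toFun x := x.map (AddMonoidAlgebra.singleZeroRingHom (R := K) (M := ℤ))
  map_one' := by
    apply cf_ext
    intro a m
    rw [cf_one]
    show ((AddMonoidAlgebra.singleZeroRingHom (R := K) (M := ℤ)) ((1 : HG Γ K).coeff a)).coeff m = _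
    rw [HahnSeries.coeff_one]
    by_cases ha : a = 0
    · rw [if_pos ha, map_one]
      have := cf_one (Γ := Γ) (K := K) a m
      rw [cf, HahnSeries.coeff_one, if_pos ha] at this
      exact this
    · rw [if_neg ha, map_zero, if_neg (fun h => ha h.1)]
      rfl
  map_mul' x y := HahnSeries.map_mul
    ((AddMonoidAlgebra.singleZeroRingHom (R := K) (M := ℤ)) : K →ₙ+* LP K)
  map_zero' := by
    apply cf_ext
    intro a m
    rw [cf_zero]
    show ((AddMonoidAlgebra.singleZeroRingHom (R := K) (M := ℤ)) ((0 : HG Γ K).coeff a)).coeff m = _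
    rw [HahnSeries.coeff_zero, map_zero]
    rfl
  map_add' x y := by
    apply cf_ext
    intro a m
    rw [cf_add]
    show ((AddMonoidAlgebra.singleZeroRingHom (R := K) (M := ℤ)) ((x + y).coeff a)).coeff m = _
    rw [HahnSeries.coeff_add, map_add]
    rfl

theorem cf_incl (c : HG Γ K) (a : Γ) (m : ℤ) : cf (incl c) a m = if m = 0 then c.coeff a else 0 := by
  classical
  show (AddMonoidAlgebra.single (0 : ℤ) (c.coeff a)).coeff m = _
  rw [AddMonoidAlgebra.coeff_single, Finsupp.single_apply]
  simp only [eq_comm]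

/-- the constant functions -/
noncomputable def cst : HG Γ K →+* Ent Γ K where
  toFun c := ⟨fun _ => incl c, fun s a m => by
    rw [cf_incl, cf_incl]
    split_ifs with h
    · rw [h, zero_smul, sub_zero]
    · rfl⟩
  map_one' := Subtype.ext (funext fun _ => map_one incl)
  map_mul' x y := Subtype.ext (funext fun _ => map_mul incl x y)
  map_zero' := Subtype.ext (funext fun _ => map_zero incl)
  map_add' x y := Subtype.ext (funext fun _ => map_add incl x y)

noncomputable instance : Algebra (HG Γ K) (Ent Γ K) := (cst (Γ := Γ) (K := K)).toAlgebra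

theorem smul_def' (c : HG Γ K) (f : Ent Γ K) : c • f = cst c * f := rfl

/-- the dilation `f(x) ↦ f(t^P x)` -/
noncomputable def sg (P : Γ) : Ent Γ K →+* Ent Γ K where
  toFun f := ⟨fun s => f.1 (s + P), fun s a m => by
    rw [f.2 (s + P), f.2 (0 + P), zero_add, smul_add]
    congr 1
    abel⟩
  map_one' := rfl
  map_mul' _ _ := rfl
  map_zero' := rfl
  map_add' _ _ := rfl

theorem sg_val (P : Γ) (f : Ent Γ K) (s : Γ) : (sg P f).1 s = f.1 (s + P) := rfl

/-- the monomial `x^k` -/
noncomputable def mono (k : ℤ) : Ent Γ K :=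
  ⟨fun s => HahnSeries.single (k • s) (AddMonoidAlgebra.single k 1), fun s a m => by
    classical
    simp only [cf, smul_zero, HahnSeries.coeff_single]
    by_cases hm : m = k
    · subst hm
      by_cases h : a = m • s
      · rw [if_pos h, if_pos (by rw [h, sub_self])]
      · rw [if_neg h, if_neg (by rw [sub_eq_zero]; exact h)]
    · split_ifs <;> simp [Finsupp.single_apply, Ne.symm hm]⟩

/-- monomial points and monomial constants: `(v, ξ)` stands for `ξ t^v` -/
abbrev Pt (Γ K : Type) [AddCommGroup Γ] [Field K] : Type := Multiplicative Γ × Kˣ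

/-- the exponent of a monomial constant -/
def Pt.v (a : Pt Γ K) : Γ := Multiplicative.toAdd a.1

/-- the constant `ξ t^v` -/
noncomputable def cc (a : Pt Γ K) : HG Γ K := HahnSeries.single a.v (a.2 : K)

/-- the constant `-1` -/
def ng1 : Pt Γ K := (1, -1)

/-- `- a` -/
def ng (a : Pt Γ K) : Pt Γ K := ng1 * a

/-- the constant `t^P` -/
def qq (P : Γ) : Pt Γ K := (Multiplicative.ofAdd P, 1)

/-- theta functions: `f (t^P x) = c x^(-e) f(x)` -/
noncomputable def Th (P : Γ) (e : ℤ) (c : Pt Γ K) : Submodule (HG Γ K) (Ent Γ K) where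
  carrier := {f | sg P f = cst (cc c) * mono (-e) * f}
  add_mem' := fun {f g} hf hg => by
    simp only [Set.mem_ofPred_eq] at hf hg ⊢
    rw [map_add, hf, hg]; ring
  zero_mem' := by simp
  smul_mem' := fun z f hf => by
    simp only [Set.mem_ofPred_eq] at hf ⊢
    have h1 : sg P (cst z : Ent Γ K) = cst z := rfl
    rw [smul_def', map_mul, hf, h1]; ring

theorem mem_Th {P : Γ} {e : ℤ} {c : Pt Γ K} {f : Ent Γ K} :
    f ∈ Th P e c ↔ sg P f = cst (cc c) * mono (-e) * f := Iff.rfl

section hat
variable {B B' : Type} [CommRing B] [CommRing B']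

/-- the `n`-th coefficient of the image -/
noncomputable def cn (φ : B →+* PowerSeries B') (n : ℕ) : B →+ B' where
  toFun b := PowerSeries.coeff n (φ b)
  map_zero' := by rw [map_zero, map_zero]
  map_add' x y := by rw [map_add, map_add]

theorem cn_apply (φ : B →+* PowerSeries B') (n : ℕ) (b : B) :
    cn φ n b = PowerSeries.coeff n (φ b) := rfl

theorem coeff_map_cn (φ : B →+* PowerSeries B') (n : ℕ) (x : HahnSeries Γ B) (a : Γ) :
    (x.map (cn φ n)).coeff a = PowerSeries.coeff n (φ (x.coeff a)) := rfl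

/-- coefficientwise extension of a homomorphism to power series -/
noncomputable def hat (φ : B →+* PowerSeries B') :
    HahnSeries Γ B →+* PowerSeries (HahnSeries Γ B') where
  toFun x := PowerSeries.mk fun n => x.map (cn φ n)
  map_one' := by
    ext n a
    rw [PowerSeries.coeff_mk, coeff_map_cn, HahnSeries.coeff_one, PowerSeries.coeff_one]
    by_cases ha : a = 0
    · rw [if_pos ha, map_one, PowerSeries.coeff_one]
      split_ifs
      · rw [ha, HahnSeries.coeff_one, if_pos rfl]
      · rw [HahnSeries.coeff_zero]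
    · rw [if_neg ha, map_zero, map_zero]
      split_ifs
      · rw [HahnSeries.coeff_one, if_neg ha]
      · rw [HahnSeries.coeff_zero]
  map_mul' x y := by
    classical
    ext n a
    rw [PowerSeries.coeff_mk, coeff_map_cn, HahnSeries.coeff_mul, map_sum, map_sum,
      PowerSeries.coeff_mul, HahnSeries.coeff_sum]
    have h1 : ∀ p ∈ Finset.HasAntidiagonal.antidiagonal n,
        ((PowerSeries.coeff p.1) (PowerSeries.mk fun n => x.map (cn φ n)) *
          (PowerSeries.coeff p.2) (PowerSeries.mk fun n => y.map (cn φ n))).coeff a =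
        ∑ ij ∈ Finset.antidiagonal x.isPWO_support y.isPWO_support a,
          PowerSeries.coeff p.1 (φ (x.coeff ij.1)) * PowerSeries.coeff p.2 (φ (y.coeff ij.2)) := by
      intro p _
      rw [PowerSeries.coeff_mk, PowerSeries.coeff_mk, HahnSeries.coeff_mul]
      apply Finset.sum_subset
      · intro ij h
        rw [Finset.mem_antidiagonal] at h ⊢
        refine ⟨fun h0 => h.1 ?_, fun h0 => h.2.1 ?_, h.2.2⟩
        · rw [coeff_map_cn, h0, map_zero, map_zero]
        · rw [coeff_map_cn, h0, map_zero, map_zero]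
      · intro ij h h'
        rw [Finset.mem_antidiagonal] at h h'
        by_cases h2 : (x.map (cn φ p.1)).coeff ij.1 = 0
        · rw [h2, zero_mul]
        · by_cases h3 : (y.map (cn φ p.2)).coeff ij.2 = 0
          · rw [h3, mul_zero]
          · exact absurd ⟨h2, h3, h.2.2⟩ h'
    rw [Finset.sum_congr rfl h1, Finset.sum_comm]
    apply Finset.sum_congr rfl
    intro ij _
    rw [map_mul, PowerSeries.coeff_mul]
  map_zero' := by
    ext n a
    rw [PowerSeries.coeff_mk, coeff_map_cn, HahnSeries.coeff_zero, map_zero, map_zero, map_zero,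
      HahnSeries.coeff_zero]
  map_add' x y := by
    ext n a
    rw [PowerSeries.coeff_mk, coeff_map_cn, HahnSeries.coeff_add, map_add, map_add, map_add,
      HahnSeries.coeff_add, PowerSeries.coeff_mk, PowerSeries.coeff_mk, coeff_map_cn, coeff_map_cn]

theorem coeff_hat (φ : B →+* PowerSeries B') (x : HahnSeries Γ B) (n : ℕ) (a : Γ) :
    (PowerSeries.coeff n (hat φ x)).coeff a = PowerSeries.coeff n (φ (x.coeff a)) := by
  show (PowerSeries.coeff n (PowerSeries.mk fun n => x.map (cn φ n))).coeff a = _
  rw [PowerSeries.coeff_mk, coeff_map_cn]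

end hat

theorem isUnit_xi (ξ : Kˣ) : IsUnit (PowerSeries.C (ξ : K) * (1 + PowerSeries.X) : PowerSeries K) := by
  rw [PowerSeries.isUnit_iff_constantCoeff]
  simp

/-- the unit `ξ (1 + u)` -/
noncomputable def xiU (ξ : Kˣ) : (PowerSeries K)ˣ := (isUnit_xi ξ).unit

/-- `X ↦ ξ (1 + u)` -/
noncomputable def ph (ξ : Kˣ) : LP K →+* PowerSeries K :=
  ((AddMonoidAlgebra.lift K (PowerSeries K) ℤ
    ((Units.coeHom (PowerSeries K)).comp (zpowersHom (PowerSeries K)ˣ (xiU ξ))) :
      LP K →ₐ[K] PowerSeries K) : LP K →+* PowerSeries K)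

/-- the Taylor expansion at a monomial point `a = ξ t^v`: `f (a (1 + u))` -/
noncomputable def T (a : Pt Γ K) : Ent Γ K →+* PowerSeries (HG Γ K) :=
  ((hat (ph a.2)).comp (Pi.evalRingHom (fun _ => HL Γ K) a.v)).comp (Ent Γ K).subtype

theorem coeff_T (a : Pt Γ K) (f : Ent Γ K) (n : ℕ) (b : Γ) :
    (PowerSeries.coeff n (T a f)).coeff b = PowerSeries.coeff n (ph a.2 ((f.1 a.v).coeff b)) :=
  coeff_hat _ _ _ _

section mk
variable (κ : ℤ → K) (w : ℤ → Γ) (h : ∀ s a : Γ, {m : ℤ | w m + m • s ≤ a}.Finite)

theorem isPWO_w (h : ∀ s a : Γ, {m : ℤ | w m + m • s ≤ a}.Finite) (s : Γ) :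
    (Set.range fun m : ℤ => w m + m • s).IsPWO := by
  apply Set.IsWF.isPWO
  rw [Set.isWF_iff_no_descending_seq]
  intro f hf hmem
  choose g hg using hmem
  have hinj : Function.Injective g := by
    intro m n hmn
    apply hf.injective
    rw [← hg m, ← hg n, hmn]
  have hfin : (Set.range g).Finite := by
    apply Set.Finite.subset (h s (f 0))
    rintro _ ⟨n, rfl⟩
    show w (g n) + g n • s ≤ f 0
    have := hg n
    simp only at this
    rw [this]
    exact hf.antitone (Nat.zero_le n)
  exact Set.infinite_range_of_injective hinj hfin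

/-- the entire function with the coefficients `κ_m t^(w_m)` -/
noncomputable def mkE : Ent Γ K :=
  ⟨fun s =>
    { coeff := fun a => .ofCoeff (Finsupp.onFinset (h s a).toFinset
        (fun m => by classical exact if w m + m • s = a then κ m else 0) (by
          intro m hm
          simp only [ne_eq, ite_eq_right_iff, not_forall] at hm
          obtain ⟨h1, -⟩ := hm
          simp [h1]))
      isPWO_support' := (isPWO_w w h s).mono (by
        intro a ha
        by_contra hc
        apply ha
        ext m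
        simp only [AddMonoidAlgebra.coeff_ofCoeff, Finsupp.onFinset_apply, AddMonoidAlgebra.coeff_zero,
          Finsupp.coe_zero, Pi.zero_apply, ite_eq_right_iff]
        intro h1
        exact absurd ⟨m, h1⟩ hc) },
    fun s a m => by
      simp only [cf, AddMonoidAlgebra.coeff_ofCoeff, Finsupp.onFinset_apply, smul_zero, add_zero]
      congr 1
      rw [eq_sub_iff_add_eq]⟩

open Classical in
theorem cf_mkE (s a : Γ) (m : ℤ) :
    cf ((mkE κ w h).1 s) a m = if w m + m • s = a then κ m else 0 := by
  simp only [cf, mkE, AddMonoidAlgebra.coeff_ofCoeff, Finsupp.onFinset_apply]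

end mk

/-- the period is large enough for the convergence of the theta series -/
def Big (P : Γ) : Prop := ∀ s a : Γ, {m : ℤ | (m * (m - 1) / 2) • P + m • s ≤ a}.Finite

theorem big_aux {P : Γ} (hP : Big P) (a : Pt Γ K) (s b : Γ) :
    {m : ℤ | ((m * (m - 1) / 2) • P - m • a.v) + m • s ≤ b}.Finite := by
  refine (hP (s - a.v) b).subset fun m hm => ?_
  simp only [Set.mem_ofPred_eq] at hm ⊢
  rw [smul_sub]
  have e : (m * (m - 1) / 2) • P + (m • s - m • a.v) = (m * (m - 1) / 2) • P - m • a.v + m • s := by abel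
  rw [e]
  exact hm

open Classical in
/-- the theta function with the simple zero `a`: `∑ (-1)^m q^(m (m - 1) / 2) (x / a)^m`, `q = t^P` -/
noncomputable def theta (P : Γ) (a : Pt Γ K) : Ent Γ K :=
  if hP : Big P then
    mkE (fun m => (((-1) ^ m * a.2 ^ (-m) : Kˣ) : K)) (fun m => (m * (m - 1) / 2) • P - m • a.v)
      (big_aux hP a)
  else 0

theorem theta_eq {P : Γ} (hP : Big P) (a : Pt Γ K) : theta P a =
    mkE (fun m => (((-1) ^ m * a.2 ^ (-m) : Kˣ) : K)) (fun m => (m * (m - 1) / 2) • P - m • a.v)
      (big_aux hP a) := by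
  rw [theta, dif_pos hP]

/-- `X^m ↦ (m choose l) X^m` -/
noncomputable def dl (l : ℕ) : LP K →+ LP K where
  toFun p := .ofCoeff (Finsupp.onFinset p.coeff.support
    (fun m => ((Ring.choose m l : ℤ) : K) * p.coeff m) (fun m hm => by
      rw [Finsupp.mem_support_iff]
      exact right_ne_zero_of_mul hm))
  map_zero' := by ext; simp
  map_add' p p' := by ext; simp [mul_add]

theorem coeff_dl (l : ℕ) (p : LP K) (m : ℤ) :
    (dl l p).coeff m = ((Ring.choose m l : ℤ) : K) * p.coeff m := rfl

/-- the derivation `x^l (1/l!) (d/dx)^l` -/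
noncomputable def Dl (l : ℕ) : Ent Γ K →+ Ent Γ K where
  toFun f := ⟨fun s => (f.1 s).map (dl l), fun s a m => by
    show ((dl l) ((f.1 s).coeff a)).coeff m = ((dl l) ((f.1 0).coeff (a - m • s))).coeff m
    rw [coeff_dl, coeff_dl]
    exact congrArg _ (f.2 s a m)⟩
  map_zero' := by
    apply Subtype.ext
    funext s
    ext a m
    show ((dl l) ((0 : LP K))).coeff m = _
    rw [map_zero]
    rfl
  map_add' f g := by
    apply Subtype.ext
    funext s
    ext a m
    show ((dl l) ((f.1 s).coeff a + (g.1 s).coeff a)).coeff m = _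
    rw [map_add]
    rfl

theorem cf_Dl (l : ℕ) (f : Ent Γ K) (s a : Γ) (m : ℤ) :
    cf ((Dl l f).1 s) a m = ((Ring.choose m l : ℤ) : K) * cf (f.1 s) a m := rfl

end Pool.Agent.H369.TH
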