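import Mathlib

/-!
# Entire functions over Hahn series fields

`Γ` is a linearly ordered group, `K` a field, `HahnSeries Γ K` the field of the constants.  An entire
function is given by its expansions on all the circles `|x| = |t|^s`, `x = t^s X`: for every `s : Γ` a
Hahn series in `t` whose coefficients are Laurent polynomials in `X`.  The coefficient of
`t^a X^m` on the circle `s` is the coefficient of `t^(a - m s) x^m` of the function.
-/

set_option autoImplicit false

namespace Pool.Agent.H369.TH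

variable {Γ K : Type} [AddCommGroup Γ] [LinearOrder Γ] [IsOrderedAddMonoid Γ] [Field K]

/-- Laurent polynomials in `X` -/
abbrev LP (K : Type) [Field K] : Type := AddMonoidAlgebra K ℤ
/-- the field of the constants -/
abbrev HG (Γ K : Type) [AddCommGroup Γ] [LinearOrder Γ] [IsOrderedAddMonoid Γ] [Field K] : Type :=
  HahnSeries Γ K
/-- Hahn series with Laurent polynomials as coefficients -/
abbrev HL (Γ K : Type) [AddCommGroup Γ] [LinearOrder Γ] [IsOrderedAddMonoid Γ] [Field K] : Type :=
  HahnSeries Γ (LP K)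

/-- the coefficient of `t^a X^m` -/
noncomputable def cf (u : HL Γ K) (a : Γ) (m : ℤ) : K := (u.coeff a).coeff m

theorem cf_ext {u v : HL Γ K} (h : ∀ a m, cf u a m = cf v a m) : u = v := by
  ext a m
  exact h a m

theorem cf_add (u v : HL Γ K) (a : Γ) (m : ℤ) : cf (u + v) a m = cf u a m + cf v a m := by
  simp [cf]

theorem cf_neg (u : HL Γ K) (a : Γ) (m : ℤ) : cf (-u) a m = -cf u a m := by
  simp [cf]

theorem cf_zero (a : Γ) (m : ℤ) : cf (0 : HL Γ K) a m = 0 := by
  simp [cf]

theorem cf_one (a : Γ) (m : ℤ) : cf (1 : HL Γ K) a m = if a = 0 ∧ m = 0 then 1 else 0 := by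
  classical
  unfold cf
  rw [HahnSeries.coeff_one]
  by_cases h : a = 0
  · rw [if_pos h, AddMonoidAlgebra.one_def, AddMonoidAlgebra.coeff_single, Finsupp.single_apply]
    by_cases hm : m = 0
    · rw [if_pos hm.symm, if_pos ⟨h, hm⟩]
    · rw [if_neg (fun h' => hm h'.symm), if_neg (fun h' => hm h'.2)]
  · rw [if_neg h, if_neg (fun h' => h h'.1)]
    simp

/-- the coefficients of a product -/
theorem cf_mul (u v : HL Γ K) (a : Γ) (m : ℤ) :
    cf (u * v) a m = ∑ᶠ p : Γ × ℤ, cf u p.1 p.2 * cf v (a - p.1) (m - p.2) := by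
  classical
  set A := Finset.antidiagonal u.isPWO_support v.isPWO_support a with hA
  set S : Finset (Σ _ : Γ × Γ, ℤ) := A.sigma (fun q => (u.coeff q.1).coeff.support) with hS
  have h1 : cf (u * v) a m = ∑ p ∈ S, (u.coeff p.1.1).coeff p.2 * (v.coeff p.1.2).coeff (m - p.2) := by
    unfold cf
    rw [HahnSeries.coeff_mul, AddMonoidAlgebra.coeff_sum, Finsupp.finsetSum_apply, hS,
      Finset.sum_sigma]
    refine Finset.sum_congr rfl fun q _ => ?_
    rw [AddMonoidAlgebra.coeff_mul_apply_left, Finsupp.sum]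
    refine Finset.sum_congr rfl fun i _ => ?_
    rw [neg_add_eq_sub]
  set φ : (Σ _ : Γ × Γ, ℤ) → Γ × ℤ := fun p => (p.1.1, p.2) with hφ
  have hinj : Set.InjOn φ S := by
    rintro ⟨⟨b, c⟩, i⟩ h ⟨⟨b', c'⟩, i'⟩ h' he
    simp only [hφ, Prod.mk.injEq] at he
    obtain ⟨rfl, rfl⟩ := he
    rw [Finset.mem_coe, hS, Finset.mem_sigma, hA, Finset.mem_antidiagonal] at h h'
    have e1 := h.1.2.2
    have e2 := h'.1.2.2
    simp only at e1 e2
    have : c = c' := by rw [← e2] at e1; exact add_left_cancel e1
    rw [this]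
  rw [h1, finsum_eq_sum_of_support_subset (s := S.image φ)]
  · rw [Finset.sum_image hinj]
    refine Finset.sum_congr rfl fun p hp => ?_
    rw [hS, Finset.mem_sigma, hA, Finset.mem_antidiagonal] at hp
    have e1 : a - p.1.1 = p.1.2 := by rw [← hp.1.2.2]; abel
    simp only [hφ, cf, e1]
  · rintro ⟨b, i⟩ hp
    rw [Function.mem_support] at hp
    simp only [cf] at hp
    have hu : (u.coeff b).coeff i ≠ 0 := left_ne_zero_of_mul hp
    have hv : (v.coeff (a - b)).coeff (m - i) ≠ 0 := right_ne_zero_of_mul hp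
    rw [Finset.coe_image]
    refine ⟨⟨(b, a - b), i⟩, ?_, rfl⟩
    rw [Finset.mem_coe, hS, Finset.mem_sigma, hA, Finset.mem_antidiagonal]
    refine ⟨⟨fun h => hu (by rw [h]; rfl), fun h => hv (by rw [h]; rfl), by simp⟩, ?_⟩
    exact Finsupp.mem_support_iff.2 hu

variable (Γ K) in
/-- the ring of the entire functions -/
noncomputable def Ent : Subring (Γ → HL Γ K) where
  carrier := {e | ∀ (s a : Γ) (m : ℤ), cf (e s) a m = cf (e 0) (a - m • s) m}
  zero_mem' := fun s a m => by simp only [Pi.zero_apply, cf_zero]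
  one_mem' := fun s a m => by
    simp only [Pi.one_apply, cf_one]
    by_cases hm : m = 0
    · subst hm; simp
    · rw [if_neg (fun h => hm h.2), if_neg (fun h => hm h.2)]
  add_mem' := fun {e f} he hf s a m => by
    simp only [Pi.add_apply, cf_add]
    rw [he s, hf s]
  neg_mem' := fun {e} he s a m => by
    simp only [Pi.neg_apply, cf_neg]
    rw [he s]
  mul_mem' := fun {e f} he hf s a m => by
    simp only [Pi.mul_apply]
    rw [cf_mul, cf_mul]
    let ψ : Γ × ℤ ≃ Γ × ℤ :=
      { toFun := fun p => (p.1 + p.2 • s, p.2)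
        invFun := fun p => (p.1 - p.2 • s, p.2)
        left_inv := fun p => by ext <;> simp
        right_inv := fun p => by ext <;> simp }
    rw [← finsum_comp_equiv ψ]
    refine finsum_congr fun p => ?_
    show cf (e s) (p.1 + p.2 • s) p.2 * cf (f s) (a - (p.1 + p.2 • s)) (m - p.2) = _
    rw [he s, hf s]
    congr 2
    · abel
    · rw [sub_smul]; abel

end Pool.Agent.H369.TH
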