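import Pool.Agent.H369.TH.Defs

/-! Entire functions and theta functions over Hahn series: linear maps and statements. -/

set_option autoImplicit false

namespace Pool.Agent.H369.TH

open TensorProduct

section lin
variable {Γ K : Type} [AddCommGroup Γ] [LinearOrder Γ] [IsOrderedAddMonoid Γ] [Field K]

theorem ph_single_zero (ξ : Kˣ) (c : K) : ph ξ (AddMonoidAlgebra.single 0 c) = PowerSeries.C c := by
  have h : (AddMonoidAlgebra.single (0 : ℤ) c : LP K) = algebraMap K (LP K) c := rfl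
  rw [h]
  unfold ph
  rw [RingHom.coe_coe, AlgHom.commutes]
  rfl

theorem T_cst (a : Pt Γ K) (c : HG Γ K) : T a (cst c) = PowerSeries.C c := by
  ext n b
  rw [coeff_T]
  have h : (((cst c : Ent Γ K)).1 a.v).coeff b = AddMonoidAlgebra.single (0 : ℤ) (c.coeff b) := rfl
  rw [h, ph_single_zero, PowerSeries.coeff_C, PowerSeries.coeff_C]
  split_ifs
  · rfl
  · rfl

theorem cf_incl_mul (l : ℕ) (c : HG Γ K) (u v : HL Γ K)
    (huv : ∀ a m, cf v a m = ((Ring.choose m l : ℤ) : K) * cf u a m) (a : Γ) (m : ℤ) :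
    cf (incl c * v) a m = ((Ring.choose m l : ℤ) : K) * cf (incl c * u) a m := by
  rw [cf_mul, cf_mul, ← smul_eq_mul, smul_finsum]
  refine finsum_congr fun p => ?_
  rw [cf_incl]
  by_cases hp : p.2 = 0
  · rw [if_pos hp, huv, hp, sub_zero, smul_eq_mul]
    ring
  · rw [if_neg hp, zero_mul, zero_mul, smul_zero]

theorem Dl_cst (l : ℕ) (c : HG Γ K) (f : Ent Γ K) : Dl l (cst c * f) = cst c * Dl l f := by
  apply Subtype.ext
  funext s
  apply cf_ext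
  intro a m
  rw [cf_Dl]
  exact (cf_incl_mul l c (f.1 s) ((Dl l f).1 s) (fun a m => cf_Dl l f s a m) a m).symm

/-- the `l`-th Taylor coefficient at `a` -/
noncomputable def Tl (a : Pt Γ K) (l : ℕ) : Ent Γ K →ₗ[HG Γ K] HG Γ K where
  toFun f := PowerSeries.coeff l (T a f)
  map_add' f g := by rw [map_add, map_add]
  map_smul' c f := by
    rw [smul_def', map_mul, T_cst, PowerSeries.coeff_C_mul, RingHom.id_apply, smul_eq_mul]

/-- `Dl` as a linear map -/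
noncomputable def DlL (l : ℕ) : Ent Γ K →ₗ[HG Γ K] Ent Γ K where
  toFun f := Dl l f
  map_add' f g := by rw [map_add]
  map_smul' c f := by rw [smul_def', Dl_cst, RingHom.id_apply, smul_def']

/-- `f ⊗ h ↦ (Taylor coefficient of h at x) f` -/
noncomputable def pe (x : Pt Γ K) (l : ℕ) : Ent Γ K ⊗[HG Γ K] Ent Γ K →ₗ[HG Γ K] Ent Γ K :=
  (TensorProduct.rid (HG Γ K) (Ent Γ K)).toLinearMap ∘ₗ TensorProduct.map LinearMap.id (Tl x l)

/-- `f ⊗ h ↦ (Taylor coefficient of f at x) h` -/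
noncomputable def pe' (x : Pt Γ K) (l : ℕ) : Ent Γ K ⊗[HG Γ K] Ent Γ K →ₗ[HG Γ K] Ent Γ K :=
  (TensorProduct.lid (HG Γ K) (Ent Γ K)).toLinearMap ∘ₗ TensorProduct.map (Tl x l) LinearMap.id

/-- `f ⊗ h ↦ (x^l (1/l!) (d/dx)^l f) h`: the order along the diagonal -/
noncomputable def dv (l : ℕ) : Ent Γ K ⊗[HG Γ K] Ent Γ K →ₗ[HG Γ K] Ent Γ K :=
  LinearMap.mul' (HG Γ K) (Ent Γ K) ∘ₗ TensorProduct.map (DlL l) LinearMap.id

/-- `f ⊗ h ↦ (Taylor coefficient of f at x) (Taylor coefficient of h at y)` -/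
noncomputable def tt (x y : Pt Γ K) (a b : ℕ) : Ent Γ K ⊗[HG Γ K] Ent Γ K →ₗ[HG Γ K] HG Γ K :=
  LinearMap.mul' (HG Γ K) (HG Γ K) ∘ₗ TensorProduct.map (Tl x a) (Tl y b)

/-- sections of `V ⊗ V`, `V = Th P n c` -/
def InVV (P : Γ) (n : ℤ) (c : Pt Γ K) (H : Ent Γ K ⊗[HG Γ K] Ent Γ K) : Prop :=
  H ∈ LinearMap.range (TensorProduct.map (Th P n c).subtype (Th P n c).subtype)

/-- divided derivatives of power series -/
noncomputable def hs {A : Type} [CommRing A] (l : ℕ) (p : PowerSeries A) : PowerSeries A :=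
  PowerSeries.mk fun n => ((n + l).choose l : A) * PowerSeries.coeff (n + l) p

end lin

section statements

/-- **TH1** (rules).  `Ent` is a domain (`f ↦ f.1 0` is injective to the domain `HL`); coefficients. -/
def S_rules : Prop := ∀ (Γ K : Type) [AddCommGroup Γ] [LinearOrder Γ] [IsOrderedAddMonoid Γ] [Field K],
  IsDomain (Ent Γ K) ∧
  (∀ f g : Ent Γ K, (∀ m, co f m = co g m) → f = g) ∧
  (∀ (f g : Ent Γ K) (m : ℤ), co (f + g) m = co f m + co g m) ∧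
  (∀ (c : HG Γ K) (f : Ent Γ K) (m : ℤ), co (cst c * f) m = c * co f m) ∧
  (∀ (k m : ℤ) (f : Ent Γ K), co (mono k * f) m = co f (m - k)) ∧
  (∀ (P : Γ) (f : Ent Γ K) (m : ℤ), co (sg P f) m = cc (qq P ^ m) * co f m) ∧
  (∀ k l : ℤ, (mono k * mono l : Ent Γ K) = mono (k + l)) ∧ (mono 0 : Ent Γ K) = 1 ∧
  (∀ (P : Γ) (k : ℤ), sg P (mono k : Ent Γ K) = cst (cc (qq P ^ k)) * mono k) ∧
  (∀ a b : Pt Γ K, cc (a * b) = cc a * cc b) ∧ (∀ (a : Pt Γ K) (k : ℤ), cc (a ^ k) = cc a ^ k) ∧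
  (∀ a : Pt Γ K, cc a ≠ 0)

/-- **TH2** (Taylor expansions).  `T a` is injective: if `T a f = 0` then `ph (f_v).coeff b = 0` for all
`b`, and `ph` is injective (after multiplication by a power of `X` a Laurent polynomial is a
polynomial, and a nonzero polynomial has a nonzero Taylor expansion at `ξ`). -/
def S_T : Prop := ∀ (Γ K : Type) [AddCommGroup Γ] [LinearOrder Γ] [IsOrderedAddMonoid Γ] [Field K]
  [CharZero K], (∀ a : Pt Γ K, Function.Injective (T a)) ∧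
  (∀ (a : Pt Γ K) (k : ℤ), IsUnit (T a (mono k)) ∧ PowerSeries.coeff 0 (T a (mono k)) = cc (a ^ k)) ∧
  (∀ (a : Pt Γ K) (P : Γ) (f : Ent Γ K), T (a * qq P) f = T a (sg P f)) ∧
  (∀ (a : Pt Γ K) (l : ℕ) (f : Ent Γ K), T a (Dl l f) = (1 + PowerSeries.X) ^ l * hs l (T a f)) ∧
  (∀ (a : Pt Γ K) (l : ℕ) (f : Ent Γ K), PowerSeries.coeff 0 (T a (Dl l f)) = PowerSeries.coeff l (T a f)) ∧
  (∀ (l : ℕ) (f g : Ent Γ K), Dl l (f * g) = ∑ ij ∈ Finset.HasAntidiagonal.antidiagonal l,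
    Dl ij.1 f * Dl ij.2 g) ∧ (∀ f : Ent Γ K, Dl 0 f = f)

/-- **TH3** (the spaces of theta functions).  `f ∈ Th P e c` iff `c a_(m+e) = t^(mP) a_m` for the
coefficients `a_m`.  For `e ≥ 1` the coefficients `a_0, …, a_(e-1)` are arbitrary: the function with
`a_(r + k e) = c^(-k) t^((k r + e k (k - 1)/2) P)`, all other coefficients zero, is of the form `mkE`
(finiteness from `Big P`), so the dimension is `e`. -/
def S_Th : Prop := ∀ (Γ K : Type) [AddCommGroup Γ] [LinearOrder Γ] [IsOrderedAddMonoid Γ] [Field K]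
  (P : Γ) (_ : Big P),
  0 < P ∧ Big (P + P) ∧
  (∀ (e : ℤ) (c : Pt Γ K) (f : Ent Γ K), f ∈ Th P e c ↔
    ∀ m : ℤ, cc c * co f (m + e) = cc (qq P ^ m) * co f m) ∧
  (∀ (e e' : ℤ) (c c' : Pt Γ K) (f f' : Ent Γ K), f ∈ Th P e c → f' ∈ Th P e' c' →
    f * f' ∈ Th P (e + e') (c * c')) ∧
  (∀ (e : ℕ) (c : Pt Γ K), 0 < e → Module.finrank (HG Γ K) (Th P e c) = e) ∧
  (∀ (e : ℤ) (c : Pt Γ K), e < 0 → Th P e c = ⊥) ∧
  (∀ k : ℤ, (mono k : Ent Γ K) ∈ Th P 0 (qq P ^ k)) ∧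
  (∀ (c : Pt Γ K) (f : Ent Γ K), f ∈ Th P 0 c → f ≠ 0 → ∃ (k : ℤ) (z : HG Γ K),
    c = qq P ^ k ∧ z ≠ 0 ∧ f = cst z * mono k)

/-- **TH4** (the theta function).  Zero at `a`: the terms `m` and `1 - m` cancel.  The coefficient of
`t^0` in the first Taylor coefficient at `a` is `-1` (`m = 1`; `m = 0` contributes zero, all the other
exponents `m (m-1)/2 P` are positive).  At `b` the exponents are `m (m-1)/2 P + m (v_b - v_a)`; if
`v_b - v_a` is not a multiple of `P` the minimum is attained once, if `v_b = v_a + j P` it is attained for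
`m = -j` and `m = 1 - j` and the two coefficients cancel only if the residues of `a` and `b` are equal. -/
def S_theta : Prop := ∀ (Γ K : Type) [AddCommGroup Γ] [LinearOrder Γ] [IsOrderedAddMonoid Γ] [Field K]
  [CharZero K] (P : Γ) (_ : Big P) (a : Pt Γ K),
  theta P a ∈ Th P 1 (ng a) ∧ theta P a ≠ 0 ∧ PowerSeries.coeff 0 (T a (theta P a)) = 0 ∧
  PowerSeries.coeff 1 (T a (theta P a)) ≠ 0 ∧
  ∀ b : Pt Γ K, (∀ k : ℤ, b ≠ a * qq P ^ k) → PowerSeries.coeff 0 (T b (theta P a)) ≠ 0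

/-- **TH5** (division).  First `k = 1`, `e ≥ 1`.  `e = 1`: `Th P 1 c` is spanned by `theta P (ng c)`, which
vanishes at `a` only if `a = ng c * qq P ^ j` (`S_theta`), and then `theta P (ng c)` is a constant times
`mono i * theta P a` for some `i` (both are nonzero elements of a one-dimensional space).  `e ≥ 2`: the
evaluation at `a` is not zero on `Th P e c` (for `e = 2` take `theta b * theta b'` with
`ng b * ng b' = c` and `b`, `b'` different from `a` modulo powers of `qq P`, which is possible as `K` is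
infinite; for `e > 2` multiply with powers of `theta (ng a)`, `ng (ng a) = a`), so
the functions which vanish at `a` have dimension `e - 1`, the same as `theta P a * Th P (e-1) _`.
`e ≤ 0`: a nonzero `f` has no zero.  Induction on `k`: `T a (theta P a)` is `u` times a unit. -/
def S_div : Prop := ∀ (Γ K : Type) [AddCommGroup Γ] [LinearOrder Γ] [IsOrderedAddMonoid Γ] [Field K]
  [CharZero K] (P : Γ) (_ : Big P) (e : ℤ) (c a : Pt Γ K) (f : Ent Γ K) (_ : f ∈ Th P e c) (k : ℕ)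
  (_ : ∀ l < k, PowerSeries.coeff l (T a f) = 0),
  ∃ f' ∈ Th P (e - k) (c * ng a ^ (-(k : ℤ))), f = theta P a ^ k * f'

/-- **TH6** (windows).  If the lowest coefficient `t^(a₀)` on the circle `s` contains `X^m`, then
`c.v - e s ≤ m P ≤ c.v - e s + e P`: compare the coefficients `m` and `m ± e` (`S_Th`). -/
def S_win : Prop := ∀ (Γ K : Type) [AddCommGroup Γ] [LinearOrder Γ] [IsOrderedAddMonoid Γ] [Field K]
  (P : Γ) (e : ℤ) (c : Pt Γ K) (f : Ent Γ K) (_ : f ∈ Th P e c) (s a₀ : Γ)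
  (_ : ∀ b < a₀, (f.1 s).coeff b = 0) (m : ℤ) (_ : cf (f.1 s) a₀ m ≠ 0),
  c.v - e • s ≤ m • P ∧ m • P ≤ c.v - e • s + e • P

/-- **TH7** (leading terms of the theta function on a circle) -/
def S_lead : Prop := ∀ (Γ K : Type) [AddCommGroup Γ] [LinearOrder Γ] [IsOrderedAddMonoid Γ] [Field K]
  (P : Γ) (_ : Big P) (a : Pt Γ K) (s : Γ),
  (a.v < s → s < a.v + P → (∀ b < 0, ((theta P a).1 s).coeff b = 0) ∧
    ((theta P a).1 s).coeff 0 = AddMonoidAlgebra.single 0 1) ∧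
  (s < a.v → a.v < s + P → (∀ b < s - a.v, ((theta P a).1 s).coeff b = 0) ∧
    ((theta P a).1 s).coeff (s - a.v) = AddMonoidAlgebra.single 1 (-((a.2⁻¹ : Kˣ) : K)))

/-- **TH8** (sections on the square which vanish along the diagonal).  Write `H = ∑ f_i ⊗ h_i`,
`f_i, h_i ∈ Th P n c`.  For `l : ℤ` let `A_l` be the entire function with the coefficients
`(A_l)_m = ∑_i co f_i m * co h_i (l - m)`: on the circle `s` it is the coefficient of `Y^l` of the product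
of `f_i` on the circle `s` with `X` replaced by `X Y` and of `h_i` on the circle `0` with `X` replaced by
`Y`, in the Hahn series with Laurent polynomials in `X` and `Y` as coefficients.  Then
`A_l ∈ Th (P + P) n (qq P ^ (l - n))`.  The `j`-th Taylor coefficient of `A_l` at the point `1` is
`∑_m (m choose j) (A_l)_m = co (dv j H) l = 0` for `j < γ`, and `A_l (q (1 + u)) = c (1 + u)^(-n) A_(l + n) (1 + u)`
(`q = qq P`), so `A_l` vanishes at `q` to the order `γ`, too.  By `S_div` for the period `P + P` (twice;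
the points `1` and `q` are different modulo `qq (P + P)`) `A_l` is divisible by `2 γ` theta functions,
`A_l = 0` as `n < 2 γ` (`S_Th`).  So `∑_i co f_i m * co h_i m' = 0` for all `m, m'` and `H = 0`. -/
def S_b0 : Prop := ∀ (Γ K : Type) [AddCommGroup Γ] [LinearOrder Γ] [IsOrderedAddMonoid Γ] [Field K]
  [CharZero K] (P : Γ) (_ : Big P) (n : ℤ) (c : Pt Γ K) (γ : ℕ) (H : Ent Γ K ⊗[HG Γ K] Ent Γ K)
  (_ : InVV P n c H) (_ : ∀ l < γ, dv l H = 0) (_ : n < 2 * γ), H = 0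

/-- **TH9**.  Let `U = {f ∈ V = Th P n c : Tl x l f = 0 for l < j}`, `U = θ^j * Th P (n - j) c'` with
`θ = theta P x` (`S_div`).  As `pe x l H = 0` for `l < j`, `H ∈ V ⊗ U`, and as `pe' x l H = 0`, `H ∈ U ⊗ V`;
so `H ∈ U ⊗ U` (linear algebra over a field), `H = (θ^j ⊗ θ^j) H'` with `H' ∈ V' ⊗ V'`,
`V' = Th P (n - j) c'`, `c' = c * ng x ^ (-j)`.  By the Leibniz rule (`S_T`) and induction on `l`,
`dv l H' = 0` for `l < γ`.  If `n < j + 2 γ` then `H' = 0` by `S_b0`.  In general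
`pe x j H = (Tl x j (θ^j)) θ^j f'` with `f' = pe x 0 H' ∈ V'`, and `Tl x l f' = 0` for `l < γ`: apply `Tl x 0` to
`dv l H' = 0`, `Tl x 0 (Dl l f) = Tl x l f`.  By `S_div` `f' = θ^γ Φ'`. -/
def S_AB : Prop := ∀ (Γ K : Type) [AddCommGroup Γ] [LinearOrder Γ] [IsOrderedAddMonoid Γ] [Field K]
  [CharZero K] (P : Γ) (_ : Big P) (n : ℤ) (c x : Pt Γ K) (j γ : ℕ)
  (H : Ent Γ K ⊗[HG Γ K] Ent Γ K) (_ : InVV P n c H) (_ : ∀ l < j, pe x l H = 0)
  (_ : ∀ l < j, pe' x l H = 0) (_ : ∀ l < γ, dv l H = 0),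
  (∃ Φ ∈ Th P (n - j - γ) (c * ng x ^ (-((j : ℤ) + γ))), pe x j H = theta P x ^ (j + γ) * Φ) ∧
  (n < j + 2 * γ → H = 0)

/-- **TH10** (degeneration to the normal cone of `E × x`).  `G a b` is the coefficient of `δ^a ε^b`.
Let `f_(a,b,l) = pe x l (G a b)`.  They are not all zero (`T x` is injective, so `pe x l H = 0` for all `l`
implies `H = 0`); let `s` be the minimum of `a + l` with `f_(a,b,l) ≠ 0` for some `b`.  For `j ≤ s` put
`H = G (s - j) b`: `pe x l H = 0` for `l < j`, and the same for `pe'` by the symmetry; let `Φ j b` be given by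
`S_AB` (`pe x j H = θ^(j+γ) Φ j b`), for `j > s` let `Φ j b = 0`.  The node condition with `A = s` is
(as `tt p x a' l H = Tl p a' (pe x l H)`) the vanishing of
`∑_j (j choose b') ζ^(j - b') ∑_b ε^b Tl p a' (θ^(j+γ) Φ j b)` for `a' + b' < γ`; `T p θ^γ` is a unit, so the
same holds with `θ^j` instead of `θ^(j+γ)` (for fixed `b'` this is a statement on the first `γ - b'`
coefficients of a power series in `u` with coefficients in the power series in `ε`). -/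
def S_delta : Prop := ∀ (Γ K : Type) [AddCommGroup Γ] [LinearOrder Γ] [IsOrderedAddMonoid Γ] [Field K]
  [CharZero K] (P : Γ) (_ : Big P) (n γ : ℕ) (c x : Pt Γ K) (m : ℕ) (p : Fin m → Pt Γ K)
  (_ : ∀ i, PowerSeries.coeff 0 (T (p i) (theta P x)) ≠ 0)
  (ζ : Fin m → PowerSeries (HG Γ K)) (κ : HG Γ K) (_ : κ * κ = 1)
  (G : ℕ → ℕ → Ent Γ K ⊗[HG Γ K] Ent Γ K) (_ : ∀ a b, InVV P n c (G a b))
  (_ : ∀ a b, TensorProduct.comm (HG Γ K) (Ent Γ K) (Ent Γ K) (G a b) = κ • G a b)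
  (_ : ∀ a b, ∀ l < γ, dv l (G a b) = 0)
  (_ : ∀ (i : Fin m) (a' b' A : ℕ), a' + b' < γ →
    ∑ l ∈ Finset.range (A + 1), (l.choose b' : PowerSeries (HG Γ K)) * ζ i ^ (l - b') *
      PowerSeries.mk (fun b => tt (p i) x a' l (G (A - l) b)) = 0)
  (_ : ∃ a b, G a b ≠ 0),
  2 * γ ≤ n ∧ ∃ Φ : ℕ → ℕ → Ent Γ K,
    (∀ j b : ℕ, Φ j b ∈ Th P ((n : ℤ) - (j : ℤ) - γ) (c * ng x ^ (-((j : ℤ) + γ)))) ∧
    (∀ j b : ℕ, n < j + 2 * γ → Φ j b = 0) ∧ (∃ j b, Φ j b ≠ 0) ∧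
    ∀ (i : Fin m) (a' b' : ℕ), a' + b' < γ →
      ∑ j ∈ Finset.range (n - 2 * γ + 1), (j.choose b' : PowerSeries (HG Γ K)) * ζ i ^ (j - b') *
        PowerSeries.mk (fun b => PowerSeries.coeff a' (T (p i) (theta P x ^ j * Φ j b))) = 0

/-- **TH11** (division by `B = θ₁ Z - g₂`).  `P(Z) = ∑_{j ≤ J} F_j Z^j`, `F_j ∈ Th P (D - j) (C₀ * ng x0 ^ (-j))`,
`θ₁ = theta P x1`, `g₂ = theta P y1 * theta P y2`, `y1 * y2 = x0 * x1`, `T x1 g₂` a unit.  Suppose that the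
divided derivatives of order `< k` of `P` vanish at `Z = g₂ / θ₁`, i.e.
`∑_j (j choose i) F_j g₂^(j-i) θ₁^(J-j) = 0` for `i < k`.  Then `P = B^k R` with `R = ∑ R_j Z^j`,
`R_j ∈ Th P (D - 2 k - j) (C₀ * ng x0 ^ (-j-k) * ng x1 ^ (-k))`, `R_j = 0` for `j + k > J`.
Proof: by induction on `k` it is enough to divide once (the derivatives of lower order of the quotient
vanish, too).  For `k = 1` use induction on `J`: from `∑_j F_j g₂^j θ₁^(J-j) = 0` it follows that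
`θ₁` divides `F_J g₂^J`, so `T x1 F_J` has the constant coefficient zero and `F_J = θ₁ Q` by `S_div`; replace
`P` by `P - B Q Z^(J-1)`, of degree `≤ J - 1`, whose coefficient of `Z^(J-1)` is `F_(J-1) + g₂ Q`.
(`J = 0`: `F_0 = 0`.) -/
def S_quot : Prop := ∀ (Γ K : Type) [AddCommGroup Γ] [LinearOrder Γ] [IsOrderedAddMonoid Γ] [Field K]
  [CharZero K] (P : Γ) (_ : Big P) (D : ℤ) (J k : ℕ) (C₀ x0 x1 y1 y2 : Pt Γ K) (_ : y1 * y2 = x0 * x1)
  (_ : PowerSeries.coeff 0 (T x1 (theta P y1 * theta P y2)) ≠ 0) (F : Polynomial (Ent Γ K))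
  (_ : ∀ j : ℕ, F.coeff j ∈ Th P (D - (j : ℤ)) (C₀ * ng x0 ^ (-(j : ℤ)))) (_ : F.natDegree ≤ J)
  (_ : ∀ i < k, ∑ j ∈ Finset.range (J + 1), (j.choose i : Ent Γ K) * F.coeff j *
    (theta P y1 * theta P y2) ^ (j - i) * theta P x1 ^ (J - j) = 0),
  ∃ R : Polynomial (Ent Γ K),
    F = (Polynomial.C (theta P x1) * Polynomial.X - Polynomial.C (theta P y1 * theta P y2)) ^ k * R ∧
    (∀ j : ℕ, R.coeff j ∈ Th P (D - 2 * k - (j : ℤ))
      (C₀ * ng x0 ^ (-((j : ℤ) + k)) * ng x1 ^ (-(k : ℤ)))) ∧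
    (∀ j : ℕ, J < j + k → R.coeff j = 0)

/-- **TH12a** (change of coordinates, pure algebra).  `h ∈ A[[u]]`, `ζ = h(0) + ε y ∈ A[[ε]]`,
`𝒫(ζ') = ∑_{j ≤ J} ∑_b ε^b Q j b ζ'^j` in the ring of polynomials in `ζ'` over the power series in `u` with
coefficients in `A[[ε]]`.  The hypothesis says that `𝒫(ζ + v) ∈ (u, v)^γ`: it is the vanishing of the
coefficients of `u^a' v^b'`, `a' + b' < γ`.  Substitute `v = h(u) - h(0) + ε v'`, which is an element of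
the ideal `(u, v')`: `𝒫(h(u) + ε (y + v')) ∈ (u, v')^γ`.  This is
`∑_{b,k} ε^(b+k) (y + v')^k ∑_j (j choose k) h^(j-k) Q j b`; take the coefficient of `ε^s u^a' v'^b'`. -/
def S_pnode : Prop := ∀ (A : Type) [CommRing A] (h : PowerSeries A) (y : A) (J γ : ℕ)
  (Q : ℕ → ℕ → PowerSeries A)
  (_ : ∀ a' b' : ℕ, a' + b' < γ → ∑ j ∈ Finset.range (J + 1), (j.choose b' : PowerSeries A) *
    (PowerSeries.C (PowerSeries.coeff 0 h) + PowerSeries.X * PowerSeries.C y) ^ (j - b') *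
    PowerSeries.mk (fun b => PowerSeries.coeff a' (Q j b)) = 0) (s a' b' : ℕ) (_ : a' + b' < γ),
  ∑ k ∈ Finset.range (s + 1), (k.choose b' : A) * y ^ (k - b') * PowerSeries.coeff a'
    (∑ j ∈ Finset.range (J + 1), (j.choose k : PowerSeries A) * h ^ (j - k) * Q j (s - k)) = 0

/-- the exponent `min (J - k) (N - 2 k)` -/
def jm (N J k : ℕ) : ℕ := min (J - k) (N - 2 * k)

/-- **TH12** (degeneration to the normal cone of the curve `Z = g₂ / θ₁`).  Put `θ₀ = theta P x0`,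
`θ₁ = theta P x1`, `g₂ = theta P y1 * theta P y2`, `𝓕_b = ∑_j Φ j b Z^j`, and for `k ≤ J`
`Δ_k(F) = ∑_{j ≤ J} (j choose k) F_j g₂^(j-k) θ₁^(J-j)` (the `k`-th divided derivative at `Z = g₂/θ₁`, times
`θ₁^(J-k)`).  Not all the `Δ_k(𝓕_b)` vanish; let `s` be the minimum of `b + k` with `Δ_k(𝓕_b) ≠ 0` and
`A k = θ₀^k θ₁^k Δ_k(𝓕_(s-k))` for `k ≤ min s J`, `A k = 0` otherwise.  By `S_quot`,
`𝓕_(s-k) = (θ₁ Z - g₂)^k R`, `Δ_k(𝓕_(s-k)) = ∑_j θ₁^(J-j) g₂^j R_j`, the sum over `j ≤ J - k`, and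
`R_j = 0` if `N - 2 k - j < 0`; so it is `θ₁^(J - jm) Ψ`, `Ψ = ∑_{j ≤ jm} R_j g₂^j θ₁^(jm - j)`.
Nodes: let `p = p i`; in the ring of the power series in `u` with coefficients in `HG[[ε]]` consider
`𝒫(ζ) = ∑_b ε^b ∑_j T p (θ₀^j Φ j b) ζ^j`; the hypothesis says that `𝒫(ζ i + v)` lies in the ideal
`(u, v)^γ`.  Substitute `ζ = T p g₂ / (T p θ₀ * T p θ₁) + ε (y + v')`: this is `ζ i + v` with
`v ∈ (u, v')`, so the result lies in `(u, v')^γ`; multiplied by `T p θ₁^J` it is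
`∑_{b,k} ε^(b+k) (y + v')^k T p (θ₀^k θ₁^k Δ_k(𝓕_b))`; take the coefficient of `ε^s`.  This is `S_pnode` with
`h = T p g₂ / (T p θ₀ * T p θ₁)`, `Q j b = T p (θ₀^j Φ j b)`. -/
def S_eps : Prop := ∀ (Γ K : Type) [AddCommGroup Γ] [LinearOrder Γ] [IsOrderedAddMonoid Γ] [Field K]
  [CharZero K] (P : Γ) (_ : Big P) (N J γ : ℕ) (C₀ x0 x1 y1 y2 : Pt Γ K) (_ : y1 * y2 = x0 * x1)
  (_ : PowerSeries.coeff 0 (T x1 (theta P y1 * theta P y2)) ≠ 0)
  (Φ : ℕ → ℕ → Ent Γ K) (_ : ∀ j b : ℕ, Φ j b ∈ Th P ((N : ℤ) - (j : ℤ)) (C₀ * ng x0 ^ (-(j : ℤ))))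
  (_ : ∀ j b, J < j → Φ j b = 0) (_ : ∃ j b, Φ j b ≠ 0)
  (m : ℕ) (p : Fin m → Pt Γ K) (y : Fin m → HG Γ K)
  (_ : ∀ i, PowerSeries.coeff 0 (T (p i) (theta P x0)) ≠ 0)
  (_ : ∀ i, PowerSeries.coeff 0 (T (p i) (theta P x1)) ≠ 0)
  (_ : ∀ (i : Fin m) (a' b' : ℕ), a' + b' < γ →
    ∑ j ∈ Finset.range (J + 1), (j.choose b' : PowerSeries (HG Γ K)) *
      (PowerSeries.C (PowerSeries.coeff 0 (T (p i) (theta P y1 * theta P y2)) /
        (PowerSeries.coeff 0 (T (p i) (theta P x0)) * PowerSeries.coeff 0 (T (p i) (theta P x1)))) +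
        PowerSeries.X * PowerSeries.C (y i)) ^ (j - b') *
      PowerSeries.mk (fun b => PowerSeries.coeff a' (T (p i) (theta P x0 ^ j * Φ j b))) = 0),
  ∃ A : ℕ → Ent Γ K, (∃ k, A k ≠ 0) ∧ (∀ k, J < k → A k = 0) ∧
    (∀ k ≤ J, (N < 2 * k → A k = 0) ∧ (2 * k ≤ N → ∃ Ψ ∈ Th P ((N : ℤ) - 2 * k + jm N J k)
      (C₀ * ng x0 ^ (-(k : ℤ)) * ng x1 ^ ((jm N J k : ℤ) - k)),
      A k = theta P x0 ^ k * theta P x1 ^ (k + J - jm N J k) * Ψ)) ∧
    ∀ (i : Fin m) (a' b' : ℕ), a' + b' < γ →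
      ∑ k ∈ Finset.range (J + 1), (k.choose b' : HG Γ K) * y i ^ (k - b') *
        PowerSeries.coeff a' (T (p i) (A k)) = 0

/-- the expansion of a Laurent polynomial in two variables at `(ξ (1 + u), y + v)`, `y`-exponents `≥ 0`:
coefficient of `u^a v^b` -/
noncomputable def ex2 {K : Type} [Field K] (ξ : Kˣ) (y : K) (a b : ℕ) (f : (ℤ × ℕ) →₀ K) : K :=
  f.sum fun m c => c * ((Ring.choose m.1 a : ℤ) : K) * ((ξ ^ m.1 : Kˣ) : K) *
    (m.2.choose b : K) * y ^ (m.2 - b)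

/-- **TH13** (restriction to the circle `τ`).  Let `a₀` be the minimum over `k` of the exponents of the lowest
terms of `(A k).1 τ`, `A k ≠ 0`, and `f (m, k) = cf ((A k).1 τ) a₀ m`.  If `f (m, k) ≠ 0` then `X^m` occurs in the
lowest term of `A k = θ₀^k θ₁^(k + J - jm) Ψ`, the product of the lowest terms (`LP K` is a domain), i.e.
a constant times `X^(k + J - jm)` times the lowest term of `Ψ` (`S_lead`, `S_win`).  For `p i = (τ, ξ i)` the
coefficient of `t^(a₀)` of the last relation of `S_eps` is the vanishing of `ex2`. -/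
def S_tau : Prop := ∀ (Γ K : Type) [AddCommGroup Γ] [LinearOrder Γ] [IsOrderedAddMonoid Γ] [Field K]
  [CharZero K] (P : Γ) (_ : Big P) (N J γ : ℕ) (C₀ x0 x1 : Pt Γ K) (τ : Γ) (_ : x0.v < τ)
  (_ : τ < x0.v + P) (_ : τ < x1.v) (_ : x1.v < τ + P) (m : ℕ) (p : Fin m → Pt Γ K)
  (_ : ∀ i, (p i).v = τ) (y : Fin m → K) (A : ℕ → Ent Γ K) (_ : ∃ k, A k ≠ 0)
  (_ : ∀ k, J < k → A k = 0)
  (_ : ∀ k ≤ J, (N < 2 * k → A k = 0) ∧ (2 * k ≤ N → ∃ Ψ ∈ Th P ((N : ℤ) - 2 * k + jm N J k)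
      (C₀ * ng x0 ^ (-(k : ℤ)) * ng x1 ^ ((jm N J k : ℤ) - k)),
      A k = theta P x0 ^ k * theta P x1 ^ (k + J - jm N J k) * Ψ))
  (_ : ∀ (i : Fin m) (a' b' : ℕ), a' + b' < γ →
      ∑ k ∈ Finset.range (J + 1), (k.choose b' : HG Γ K) * (HahnSeries.C (y i)) ^ (k - b') *
        PowerSeries.coeff a' (T (p i) (A k)) = 0),
  ∃ f : (ℤ × ℕ) →₀ K, f ≠ 0 ∧
    (∀ (a : ℤ) (k : ℕ), f (a, k) ≠ 0 → k ≤ J ∧ 2 * k ≤ N ∧
      C₀.v - (k : ℤ) • x0.v + ((jm N J k : ℤ) - k) • x1.v - ((N : ℤ) - 2 * k + jm N J k) • τ +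
        ((k + J - jm N J k : ℕ) : ℤ) • P ≤ a • P ∧
      a • P ≤ C₀.v - (k : ℤ) • x0.v + ((jm N J k : ℤ) - k) • x1.v - ((N : ℤ) - 2 * k + jm N J k) • τ +
        ((k + J - jm N J k : ℕ) : ℤ) • P + ((N : ℤ) - 2 * k + jm N J k) • P) ∧
    ∀ (i : Fin m) (a' b' : ℕ), a' + b' < γ → ex2 (p i).2 (y i) a' b' f = 0

end statements

end Pool.Agent.H369.TH
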